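import Pool.Agent.H23.PL.Targets

/-!
# Row CHB of pld_modules: Chebyshev's upper bound
-/

set_option autoImplicit false

open Finset Polynomial Pool.Agent.H23.PL

namespace Pool.Agent.H46.PL

theorem pf_CHB : T_CHB := by
  refine ⟨Real.log 4, Real.log_pos (by norm_num), fun x hx => ?_⟩
  refine le_trans (le_of_eq ?_) (Chebyshev.theta_le_log4_mul_x hx)
  unfold Chebyshev.theta PR
  rw [Nat.floor_zero]

end Pool.Agent.H46.PL
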